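import Mathlib

/-!
# Integrals of a finite group generating the variety of integrals

For a nontrivial finite group `G` no integral `H` of `G` generates the variety `W` of all groups whose
derived subgroup lies in `Var(G)`.  Indeed `H` acts on `H' ≅ G` through a finite group, so for
`e = |Aut G|` it satisfies the law `[z ^ e, [x, y]]`.  The affine group of an infinite field of prime
characteristic `p`, where `p` divides `|G|`, does not satisfy this law, and its derived subgroup is
elementary abelian of exponent `p`, so it lies in `Var(G)`.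
-/

set_option autoImplicit false

open scoped commutatorElement

namespace Pool.Agent.Results.MP_4ce577_al.OnlyTrivial

universe u

/-- The word `w` is a law of `G`. -/
def IsLaw (w : FreeGroup ℕ) (G : Type u) [Group G] : Prop := ∀ f : ℕ → G, FreeGroup.lift f w = 1

/-- `K` lies in the variety generated by `G`: all laws of `G` are laws of `K`. -/
def InVar (G K : Type u) [Group G] [Group K] : Prop := ∀ w : FreeGroup ℕ, IsLaw w G → IsLaw w K

/-- `H` is an integral of `G`. -/
def IsIntegral (H G : Type u) [Group H] [Group G] : Prop := Nonempty (commutator H ≃* G)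

/-- The affine group of a field: the maps `x ↦ a * x + b`. -/
@[ext] structure Aff (F : Type) [Field F] : Type where
  a : Fˣ
  b : F

namespace Aff

variable {F : Type} [Field F]

instance : Mul (Aff F) := ⟨fun x y => ⟨x.a * y.a, x.a * y.b + x.b⟩⟩
instance : One (Aff F) := ⟨⟨1, 0⟩⟩
instance : Inv (Aff F) := ⟨fun x => ⟨x.a⁻¹, -((x.a⁻¹ : Fˣ) * x.b)⟩⟩

theorem mul_a (x y : Aff F) : (x * y).a = x.a * y.a := rfl
theorem mul_b (x y : Aff F) : (x * y).b = x.a * y.b + x.b := rfl
theorem one_a : (1 : Aff F).a = 1 := rfl
theorem one_b : (1 : Aff F).b = 0 := rfl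
theorem inv_a (x : Aff F) : (x⁻¹).a = x.a⁻¹ := rfl
theorem inv_b (x : Aff F) : (x⁻¹).b = -((x.a⁻¹ : Fˣ) * x.b) := rfl

instance : Group (Aff F) :=
  Group.ofLeftAxioms
    (fun x y z => by
      ext
      · simp only [mul_a, Units.val_mul]; ring
      · simp only [mul_b, mul_a, Units.val_mul]; ring)
    (fun x => by
      ext
      · simp only [mul_a, one_a, one_mul]
      · simp only [mul_b, one_a, one_b, Units.val_one]; ring)
    (fun x => by
      ext
      · simp only [mul_a, one_a, inv_a, inv_mul_cancel]
      · simp only [mul_b, one_b, inv_a, inv_b]; ring)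

/-- The linear part. -/
def lin : Aff F →* Fˣ where
  toFun := Aff.a
  map_one' := rfl
  map_mul' _ _ := rfl

theorem comm_a {k : Aff F} (hk : k ∈ commutator (Aff F)) : k.a = 1 := by
  have h : commutator (Aff F) ≤ (lin (F := F)).ker := Abelianization.commutator_subset_ker _
  exact h hk

theorem pow_lin (t : Fˣ) (n : ℕ) : (⟨t, 0⟩ : Aff F) ^ n = ⟨t ^ n, 0⟩ := by
  induction n with
  | zero => rw [pow_zero, pow_zero]; rfl
  | succ n ih =>
    rw [pow_succ, ih]
    ext
    · simp only [mul_a, pow_succ]
    · simp only [mul_b]; ring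

end Aff

/-- The word `[z ^ e, [x, y]]`. -/
def word (e : ℕ) : FreeGroup ℕ := ⁅(FreeGroup.of 0) ^ e, ⁅FreeGroup.of 1, FreeGroup.of 2⁆⁆

theorem lift_word {G : Type u} [Group G] (e : ℕ) (f : ℕ → G) :
    FreeGroup.lift f (word e) = ⁅f 0 ^ e, ⁅f 1, f 2⁆⁆ := by
  simp only [word, map_commutatorElement, map_pow, FreeGroup.lift_apply_of]

/-- An integral of a finite group satisfies a law `[z ^ e, [x, y]]`. -/
theorem word_law {G H : Type u} [Group G] [Finite G] [Group H] (h : IsIntegral H G) :
    ∃ e : ℕ, 0 < e ∧ IsLaw (word e) H := by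
  obtain ⟨i⟩ := h
  haveI : Finite (commutator H) := Finite.of_equiv G i.symm.toEquiv
  haveI : Finite (MulAut (commutator H)) :=
    Finite.of_injective (fun f : MulAut (commutator H) => (f : commutator H → commutator H))
      DFunLike.coe_injective
  refine ⟨Nat.card (MulAut (commutator H)), Nat.card_pos, fun f => ?_⟩
  rw [lift_word]
  have hc : ⁅f 1, f 2⁆ ∈ commutator H := Subgroup.commutator_mem_commutator (Subgroup.mem_top _)
    (Subgroup.mem_top _)
  have h1 : (MulAut.conjNormal (H := commutator H) (f 0)) ^ Nat.card (MulAut (commutator H)) = 1 :=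
    pow_card_eq_one'
  rw [← map_pow] at h1
  have h2 := congrArg (fun φ : MulAut (commutator H) => ((φ ⟨_, hc⟩ : commutator H) : H)) h1
  simp only [MulAut.conjNormal_apply, MulAut.one_apply] at h2
  rw [commutatorElement_def, h2, mul_inv_cancel]

/-- Laws of `G` hold in the derived subgroup of an affine group of characteristic `p`, if `G` has an
element of order `p`. -/
theorem inVar_aff {G : Type u} [Group G] {p : ℕ} [Fact p.Prime] {F : Type} [Field F]
    [Algebra (ZMod p) F] {g : G} (hg : orderOf g = p) :
    InVar G (commutator (ULift.{u} (Aff F))) := by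
  intro w hw f
  by_contra hne
  have hA : ∀ k : commutator (ULift.{u} (Aff F)), (k : ULift.{u} (Aff F)).down.a = 1 := by
    intro k
    apply Aff.comm_a
    have h1 : (commutator (ULift.{u} (Aff F))).map
        (MulEquiv.ulift (α := Aff F)).toMonoidHom ≤ commutator (Aff F) := by
      rw [map_commutator_eq]
      exact Subgroup.commutator_mono le_top le_top
    exact h1 ⟨_, k.2, rfl⟩
  set v : commutator (ULift.{u} (Aff F)) := FreeGroup.lift f w with hv
  have hb : (v : ULift.{u} (Aff F)).down.b ≠ 0 := by
    intro h0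
    apply hne
    apply Subtype.ext
    apply ULift.ext
    apply Aff.ext
    · exact hA v
    · exact h0
  obtain ⟨l, hl⟩ : ∃ l : Module.Dual (ZMod p) F, l (v : ULift.{u} (Aff F)).down.b ≠ 0 := by
    by_contra hcon
    push Not at hcon
    exact hb ((Module.forall_dual_apply_eq_zero_iff (ZMod p) _).1 hcon)
  let q : ZMod p →+ Additive G := ZMod.lift p ⟨zmultiplesHom (Additive G) (Additive.ofMul g), by
    simp only [zmultiplesHom_apply, natCast_zsmul, ← ofMul_pow]
    rw [← hg, pow_orderOf_eq_one]
    rfl⟩
  have hq : ∀ x : ZMod p, q x = 0 → x = 0 := by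
    intro x hx
    obtain ⟨n, rfl⟩ := ZMod.intCast_surjective x
    have h1 : q (n : ZMod p) = Additive.ofMul (g ^ n) := by
      rw [ofMul_zpow]
      exact ZMod.lift_coe p _ n
    rw [h1] at hx
    have h2 : g ^ n = 1 := hx
    rw [ZMod.intCast_zmod_eq_zero_iff_dvd, ← hg]
    exact orderOf_dvd_iff_zpow_eq_one.2 h2
  let ψ : commutator (ULift.{u} (Aff F)) →* G :=
    { toFun := fun k => (q (l (k : ULift.{u} (Aff F)).down.b)).toMul
      map_one' := by
        have : ((1 : commutator (ULift.{u} (Aff F))) : ULift.{u} (Aff F)).down.b = 0 := rfl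
        rw [this, map_zero, map_zero, toMul_zero]
      map_mul' := by
        intro x y
        have : ((x * y : commutator (ULift.{u} (Aff F))) : ULift.{u} (Aff F)).down.b =
            (x : ULift.{u} (Aff F)).down.b + (y : ULift.{u} (Aff F)).down.b := by
          change (x : ULift.{u} (Aff F)).down.a * (y : ULift.{u} (Aff F)).down.b +
            (x : ULift.{u} (Aff F)).down.b = _
          rw [hA x, Units.val_one, one_mul, add_comm]
        rw [this, map_add, map_add, toMul_add] }
  have h1 : ψ v = 1 := by
    have h2 : ψ.comp (FreeGroup.lift f) = FreeGroup.lift (fun i => ψ (f i)) := by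
      ext i
      simp
    have h3 := DFunLike.congr_fun h2 w
    rw [MonoidHom.comp_apply, hw] at h3
    exact h3
  exact hl (hq _ h1)

theorem aff_not_law {F : Type} [Field F] [Infinite F] {e : ℕ} (he : 0 < e) :
    ¬ IsLaw (word e) (ULift.{u} (Aff F)) := by
  intro h
  obtain ⟨t, ht⟩ : ∃ t : F, t * (t ^ e - 1) ≠ 0 := by
    by_contra hcon
    push Not at hcon
    have h1 : (Polynomial.X * (Polynomial.X ^ e - Polynomial.C 1) : Polynomial F) = 0 := by
      apply Polynomial.funext
      intro x
      simpa using hcon x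
    rcases mul_eq_zero.1 h1 with h2 | h2
    · exact Polynomial.X_ne_zero h2
    · exact Polynomial.X_pow_sub_C_ne_zero he 1 h2
  have ht0 : t ≠ 0 := left_ne_zero_of_mul ht
  have ht1 : t ^ e - 1 ≠ 0 := right_ne_zero_of_mul ht
  have ht2 : t - 1 ≠ 0 := by
    intro h0
    rw [sub_eq_zero] at h0
    rw [h0, one_pow, sub_self] at ht1
    exact ht1 rfl
  let s : Fˣ := Units.mk0 t ht0
  let f : ℕ → ULift.{u} (Aff F) := fun i => if i = 2 then ⟨⟨1, 1⟩⟩ else ⟨⟨s, 0⟩⟩
  have h1 := h f
  rw [lift_word] at h1
  have h2 := congrArg (MulEquiv.ulift (α := Aff F)) h1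
  rw [map_commutatorElement, map_commutatorElement, map_pow, map_one] at h2
  have e0 : MulEquiv.ulift (f 0) = (⟨s, 0⟩ : Aff F) := rfl
  have e1 : MulEquiv.ulift (f 1) = (⟨s, 0⟩ : Aff F) := rfl
  have e2 : MulEquiv.ulift (f 2) = (⟨1, 1⟩ : Aff F) := rfl
  rw [e0, e1, e2, Aff.pow_lin] at h2
  have h3 : (⁅(⟨s, 0⟩ : Aff F), (⟨1, 1⟩ : Aff F)⁆) = ⟨1, t - 1⟩ := by
    rw [commutatorElement_def]
    ext
    · simp [Aff.mul_a, Aff.inv_a]
    · simp [Aff.mul_a, Aff.mul_b, Aff.inv_a, Aff.inv_b, s]
      ring
  rw [h3, commutatorElement_def] at h2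
  have h4 := congrArg Aff.b h2
  simp [Aff.mul_a, Aff.mul_b, Aff.inv_a, Aff.inv_b, Aff.one_b, s] at h4
  have h5 : (t ^ e - 1) * (t - 1) = 0 := by
    linear_combination h4
  rcases mul_eq_zero.1 h5 with h6 | h6
  · exact ht1 h6
  · exact ht2 h6

/-- (1) Let `G` be a finite group. There is an integral `H` of `G` such that `Var(H)` is the class of
all groups `K` with `K' ∈ Var(G)` if and only if `G` is trivial. (2) There is a nontrivial finite
group which has an integral; for it the answer to the question is negative by (1). -/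
theorem result :
    (∀ (G : Type u) [Group G] [Finite G],
      (∃ (H : Type u) (_ : Group H), IsIntegral H G ∧
        ∀ (K : Type u) [Group K], InVar H K ↔ InVar G (commutator K)) ↔ Subsingleton G) ∧
    ∃ (G : Type u) (_ : Group G), Finite G ∧ Nontrivial G ∧
      ∃ (H : Type u) (_ : Group H), IsIntegral H G := by
  refine ⟨fun G _ _ => ⟨?_, fun hG => ?_⟩, ?_⟩
  · rintro ⟨H, _, hH, hK⟩
    by_contra hG
    rw [not_subsingleton_iff_nontrivial] at hG
    obtain ⟨p, hp, hpG⟩ := Nat.exists_prime_and_dvd (n := Nat.card G)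
      (Finite.one_lt_card (α := G)).ne'
    haveI : Fact p.Prime := ⟨hp⟩
    obtain ⟨g, hg⟩ := exists_prime_orderOf_dvd_card' p hpG
    obtain ⟨e, he, hlaw⟩ := word_law hH
    have h1 : InVar H (ULift.{u} (Aff (AlgebraicClosure (ZMod p)))) :=
      (hK _).2 (inVar_aff hg)
    exact aff_not_law he (h1 _ hlaw)
  · refine ⟨ULift.{u} (Abelianization (FreeGroup ℕ)), inferInstance, ⟨?_⟩, fun K _ => ?_⟩
    · haveI : Subsingleton (commutator (ULift.{u} (Abelianization (FreeGroup ℕ)))) := by
        rw [(commutator_eq_bot_iff_center_eq_top _).2 (CommGroup.center_eq_top)]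
        infer_instance
      haveI : Unique G := ⟨⟨1⟩, fun a => Subsingleton.elim _ _⟩
      haveI : Unique (commutator (ULift.{u} (Abelianization (FreeGroup ℕ)))) :=
        ⟨⟨1⟩, fun a => Subsingleton.elim _ _⟩
      exact MulEquiv.ofUnique
    · constructor
      · intro h w _ f
        have hbot : commutator K = ⊥ := by
          have h1 : IsLaw ⁅FreeGroup.of 0, FreeGroup.of 1⁆ K := by
            apply h
            intro f
            rw [map_commutatorElement]
            exact commutatorElement_eq_one_iff_mul_comm.2 (mul_comm _ _)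
          rw [commutator_eq_bot_iff_center_eq_top, Subgroup.eq_top_iff']
          intro a
          rw [Subgroup.mem_center_iff]
          intro b
          have h2 := h1 (fun i => if i = 0 then b else a)
          rw [map_commutatorElement, FreeGroup.lift_apply_of, FreeGroup.lift_apply_of] at h2
          exact commutatorElement_eq_one_iff_mul_comm.1 h2
        apply Subtype.ext
        rw [Subgroup.coe_one, ← Subgroup.mem_bot]
        exact hbot.le (FreeGroup.lift f w).2
      · intro h w hw f
        have h1 : w ∈ commutator (FreeGroup ℕ) := by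
          have h2 := hw (fun i => ⟨Abelianization.of (FreeGroup.of i)⟩)
          have h3 : (MulEquiv.ulift.toMonoidHom).comp
              (FreeGroup.lift (fun i => (⟨Abelianization.of (FreeGroup.of i)⟩ :
                ULift.{u} (Abelianization (FreeGroup ℕ))))) =
              (Abelianization.of : FreeGroup ℕ →* Abelianization (FreeGroup ℕ)) := by
            ext i
            simp
            rfl
          have h4 := DFunLike.congr_fun h3 w
          rw [MonoidHom.comp_apply, h2, map_one] at h4
          rw [← Abelianization.ker_of]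
          exact h4.symm
        have h5 : FreeGroup.lift f w ∈ commutator K := by
          have h6 : (commutator (FreeGroup ℕ)).map (FreeGroup.lift f) ≤ commutator K := by
            rw [map_commutator_eq]
            exact Subgroup.commutator_mono le_top le_top
          exact h6 ⟨w, h1, rfl⟩
        have h7 : IsLaw (FreeGroup.of 0) (commutator K) := h _ (fun f => Subsingleton.elim _ _)
        have h8 := h7 (fun _ => ⟨_, h5⟩)
        rw [FreeGroup.lift_apply_of] at h8
        exact congrArg Subtype.val h8
  · refine ⟨ULift.{u} (commutator (Equiv.Perm (Fin 3))), inferInstance, inferInstance, ?_,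
      ULift.{u} (Equiv.Perm (Fin 3)), inferInstance, ?_⟩
    · rw [← not_subsingleton_iff_nontrivial]
      intro h
      have h1 : commutator (Equiv.Perm (Fin 3)) = ⊥ := by
        rw [Subgroup.eq_bot_iff_forall]
        intro x hx
        exact congrArg (fun y : ULift.{u} (commutator (Equiv.Perm (Fin 3))) =>
          (y.down : Equiv.Perm (Fin 3))) (Subsingleton.elim
            (⟨⟨x, hx⟩⟩ : ULift.{u} (commutator (Equiv.Perm (Fin 3)))) ⟨1⟩)
      have h2 : ⁅Equiv.swap (0 : Fin 3) 1, Equiv.swap (1 : Fin 3) 2⁆ ∈
          commutator (Equiv.Perm (Fin 3)) :=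
        Subgroup.commutator_mem_commutator (Subgroup.mem_top _) (Subgroup.mem_top _)
      rw [h1, Subgroup.mem_bot, commutatorElement_eq_one_iff_mul_comm] at h2
      revert h2
      decide
    · refine ⟨(MulEquiv.subgroupMap (MulEquiv.ulift (α := Equiv.Perm (Fin 3)))
        (commutator (ULift.{u} (Equiv.Perm (Fin 3))))).trans ?_⟩
      refine (MulEquiv.subgroupCongr ?_).trans MulEquiv.ulift.symm
      rw [map_commutator_eq, MonoidHom.range_eq_top.2 (MulEquiv.surjective MulEquiv.ulift)]
      rfl

end Pool.Agent.Results.MP_4ce577_al.OnlyTrivial
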